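import Mathlib
import Pool.Agent.Helper679.Comb3

set_option autoImplicit false
set_option linter.unusedSectionVars false

/-!
Erdos and Pach: if no four points of a finite planar set lie on a circle, must some point have more
than (1/3 + c) n distinct distances?

We prove this for all sets having at most c n^2 ordered quadruples (a, b, a', b') of distinct
collinear points with a + b = a' + b', in particular for all sets without four collinear points.
-/

namespace Pool.Agent.Results.MP_a2cbb7_co.FewSymmetricQuadruples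

open Finset Pool.Agent.Helper679.Kite

open Classical in
/-- The ordered quadruples `(a, b, a', b')` of four distinct collinear points of `S` such that the
pairs `a, b` and `a', b'` have the same midpoint. -/
noncomputable def symQuads (S : Finset (EuclideanSpace ℝ (Fin 2))) :
    Finset (EuclideanSpace ℝ (Fin 2) × EuclideanSpace ℝ (Fin 2) ×
      EuclideanSpace ℝ (Fin 2) × EuclideanSpace ℝ (Fin 2)) :=
  (S ×ˢ S ×ˢ S ×ˢ S).filter (fun t =>
    [t.1, t.2.1, t.2.2.1, t.2.2.2].Nodup ∧ t.1 + t.2.1 = t.2.2.1 + t.2.2.2 ∧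
      Collinear ℝ ({t.1, t.2.1, t.2.2.1, t.2.2.2} : Set (EuclideanSpace ℝ (Fin 2))))

lemma mem_symQuads (S : Finset Pl) (a b c d : Pl) : (a, b, c, d) ∈ symQuads S ↔
    (a ∈ S ∧ b ∈ S ∧ c ∈ S ∧ d ∈ S) ∧ [a, b, c, d].Nodup ∧ a + b = c + d ∧
      Collinear ℝ ({a, b, c, d} : Set Pl) := by
  simp only [symQuads, Finset.mem_filter, Finset.mem_product]

lemma Nq_le (S : Finset Pl) : Nq S ≤ ((symQuads S).card : ℝ) := by
  have e1 : (symQuads S).card =
      ∑ t ∈ S.offDiag, ((symQuads S).filter (fun k => (k.1, k.2.1) = t)).card := by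
    apply Finset.card_eq_sum_card_fiberwise
    rintro ⟨a, b, p, q⟩ hk
    rw [Finset.mem_coe, mem_symQuads] at hk
    simp only [Finset.mem_coe, Finset.mem_offDiag]
    refine ⟨hk.1.1, hk.1.2.1, ?_⟩
    have := hk.2.1
    simp only [List.nodup_cons, List.mem_cons, not_or] at this
    exact this.1.1
  have e2 : ((symQuads S).card : ℝ) =
      ∑ t ∈ S.offDiag, (((symQuads S).filter (fun k => (k.1, k.2.1) = t)).card : ℝ) := by
    exact_mod_cast e1
  rw [e2]
  unfold Nq
  apply Finset.sum_le_sum
  rintro ⟨a, b⟩ ht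
  have hab := ht
  rw [Finset.mem_offDiag] at hab
  have hsub : (((cls S (a, b)).erase (a, b)).erase (b, a)).image (fun u => (a, b, u.1, u.2)) ⊆
      (symQuads S).filter (fun k => (k.1, k.2.1) = (a, b)) := by
    rintro ⟨a1, b1, c, d⟩ hk
    rw [Finset.mem_image] at hk
    obtain ⟨⟨c', d'⟩, hu, he⟩ := hk
    simp only [Prod.mk.injEq] at he
    obtain ⟨rfl, rfl, rfl, rfl⟩ := he
    rw [Finset.mem_erase, Finset.mem_erase, mem_cls, Finset.mem_offDiag] at hu
    obtain ⟨h1, h2, ⟨hc, hd, hcd⟩, hs, hcol⟩ := hu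
    simp only at hc hd hcd hs hcol
    rw [Finset.mem_filter, mem_symQuads]
    refine ⟨⟨⟨hab.1, hab.2.1, hc, hd⟩, ?_, hs.symm, hcol⟩, rfl⟩
    have n1 : a ≠ c' := by
      intro e
      apply h2
      rw [← e] at hs
      rw [← e, add_left_cancel hs]
    have n2 : b ≠ c' := by
      intro e
      apply h1
      rw [← e, add_comm a b] at hs
      rw [← e, add_left_cancel hs]
    have n3 : a ≠ d' := by
      intro e
      apply h1
      rw [← e, add_comm a b] at hs
      rw [← e, add_right_cancel hs]
    have n4 : b ≠ d' := by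
      intro e
      apply h2
      rw [← e] at hs
      rw [← e, add_right_cancel hs]
    have n5 : a ≠ b := hab.2.2
    simp only [List.nodup_cons, List.mem_cons, List.not_mem_nil, or_false, not_or, not_false_eq_true,
      List.nodup_nil, and_true]
    exact ⟨⟨n5, n1, n3⟩, ⟨n2, n4⟩, hcd⟩
  have hc := Finset.card_le_card hsub
  rw [Finset.card_image_of_injective] at hc
  · have hc2 : (cls S (a, b)).card ≤ (((cls S (a, b)).erase (a, b)).erase (b, a)).card + 2 := by
      have g1 := Finset.pred_card_le_card_erase (s := cls S (a, b)) (a := (a, b))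
      have g2 := Finset.pred_card_le_card_erase (s := (cls S (a, b)).erase (a, b)) (a := (b, a))
      omega
    have hc3 : (cls S (a, b)).card ≤
        ((symQuads S).filter (fun k => (k.1, k.2.1) = (a, b))).card + 2 := by
      refine hc2.trans ?_
      convert Nat.add_le_add_right hc 2
    have hc4 : ((cls S (a, b)).card : ℝ) ≤
        (((symQuads S).filter (fun k => (k.1, k.2.1) = (a, b))).card : ℝ) + 2 := by
      exact_mod_cast hc3
    linarith
  · rintro ⟨p1, q1⟩ ⟨p2, q2⟩ he
    simp only [Prod.mk.injEq] at he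
    rw [he.2.2.1, he.2.2.2]

open Classical in
/-- **Main theorem.** There are `c > 0` and `N` such that every set of `n ≥ N` points in the plane
with no four on a circle, and with at most `c n²` ordered quadruples of distinct collinear points
`(a, b, a', b')` with `a + b = a' + b'`, contains a point with more than `(1/3 + c) n` distinct
distances to the other points. -/
theorem result : ∃ c : ℝ, 0 < c ∧ ∃ N : ℕ, ∀ n : ℕ, N ≤ n →
    ∀ S : Finset (EuclideanSpace ℝ (Fin 2)), S.card = n →
      (∀ z : EuclideanSpace ℝ (Fin 2), ∀ r : ℝ, (S.filter (fun p => dist p z = r)).card ≤ 3) →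
      ((symQuads S).card : ℝ) ≤ c * (n : ℝ) ^ 2 →
      ∃ x ∈ S, ((1 : ℝ) / 3 + c) * n < (((S.erase x).image (fun y => dist x y)).card : ℝ) := by
  refine ⟨1 / 10 ^ 101, by positivity, 10 ^ 101, ?_⟩
  intro n hN S hS hC hQ
  by_contra hcon
  push Not at hcon
  have hC' : ∀ z : Pl, ∀ r : ℝ, (S.filter (fun p => dist p z = r)).card ≤ 3 := by
    intro z r
    convert hC z r
  have hA : ∀ x ∈ S, (DD S x : ℝ) ≤ ((1 : ℝ) / 3 + 1 / 10 ^ 101) * n := by
    intro x hx
    have := hcon x hx
    unfold DD
    convert this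
  have h1 := KK_lower S hC' _ hA
  have h2 := Nq_le S
  rw [hS] at h1
  have hn : (10 : ℝ) ^ 101 ≤ n := by exact_mod_cast hN
  have hn0 : (0 : ℝ) ≤ n := by linarith [show (0 : ℝ) ≤ 10 ^ 101 by positivity]
  have h14 : (n : ℝ) ≤ 1 / 10 ^ 101 * (n : ℝ) ^ 2 := by
    have : (1 : ℝ) ≤ 1 / 10 ^ 101 * n := by
      rw [one_div, ← div_eq_inv_mul, le_div_iff₀ (by positivity), one_mul]
      exact hn
    nlinarith
  refine no_kites S (KK S) (KK_KS S hC') ?_ ?_
  · rw [hS]
    refine le_trans ?_ hN
    norm_num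
  · rw [hS]
    have e : (1 : ℝ) / 10 ^ 99 * (n : ℝ) ^ 2 = 100 * (1 / 10 ^ 101 * (n : ℝ) ^ 2) := by
      norm_num
      ring
    rw [e]
    nlinarith

/-- The hypothesis on quadruples holds when no four points are collinear. -/
lemma symQuads_eq_empty (S : Finset (EuclideanSpace ℝ (Fin 2)))
    (h : ∀ T : Finset (EuclideanSpace ℝ (Fin 2)), T ⊆ S →
      Collinear ℝ (T : Set (EuclideanSpace ℝ (Fin 2))) → T.card ≤ 3) : symQuads S = ∅ := by
  rw [Finset.eq_empty_iff_forall_notMem]
  rintro ⟨a, b, c, d⟩ hk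
  rw [mem_symQuads] at hk
  obtain ⟨⟨ha, hb, hc, hd⟩, hnd, -, hcol⟩ := hk
  simp only [List.nodup_cons, List.mem_cons, List.not_mem_nil, or_false, not_or, not_false_eq_true,
    List.nodup_nil, and_true] at hnd
  obtain ⟨⟨n1, n2, n3⟩, ⟨n4, n5⟩, n6⟩ := hnd
  have h4 : ({a, b, c, d} : Finset Pl).card = 4 := by
    rw [Finset.card_insert_of_notMem, Finset.card_insert_of_notMem, Finset.card_insert_of_notMem,
      Finset.card_singleton]
    · simpa using n6
    · simp only [Finset.mem_insert, Finset.mem_singleton, not_or]; exact ⟨n4, n5⟩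
    · simp only [Finset.mem_insert, Finset.mem_singleton, not_or]; exact ⟨n1, n2, n3⟩
  have := h {a, b, c, d} (by
    intro x hx
    simp only [Finset.mem_insert, Finset.mem_singleton] at hx
    rcases hx with rfl | rfl | rfl | rfl <;> assumption) (by
    simpa using hcol)
  omega

end Pool.Agent.Results.MP_a2cbb7_co.FewSymmetricQuadruples
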